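import Pool.Agent.W321.SQ.Stm

/-!
# SQ-ASM: the contracted tree and the multiset identities
-/

set_option autoImplicit false
set_option linter.unusedSectionVars false

namespace Pool.Agent.W435.SQ

open Finset Pool.Agent.W321.SP Pool.Agent.W321.SQ

lemma sum_sing {V : Type} [DecidableEq V] (s : Finset V) (f : V → ℕ) :
    ∑ x ∈ s, ({f x} : Multiset ℕ) = s.val.map f := by
  induction s using Finset.induction_on with
  | empty => simp
  | insert a s ha ih =>
    rw [sum_insert ha, insert_val_of_notMem ha, Multiset.map_cons, ih, Multiset.singleton_add]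

lemma sum_list (w : List ℕ) :
    ∑ i ∈ range w.length, ({w.getD i 0} : Multiset ℕ) = (w : Multiset ℕ) := by
  induction w with
  | nil => simp
  | cons a w ih =>
    rw [List.length_cons, sum_range_succ']
    simp only [List.getD_cons_succ, List.getD_cons_zero]
    rw [ih, add_comm, Multiset.singleton_add]
    rfl

lemma sum_dm (w : List ℕ) : ∀ a : ℕ,
    ∑ i ∈ range w.length, ({ad ((a :: w).getD i 0) (w.getD i 0)} : Multiset ℕ) = dm (a :: w) := by
  induction w with
  | nil => intro a; simp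
  | cons b w ih =>
    intro a
    rw [List.length_cons, sum_range_succ', dm_cons_cons, ← ih b, ← Multiset.singleton_add, add_comm]
    simp only [List.getD_cons_succ, List.getD_cons_zero]

lemma ad_zero (x : ℕ) : ad x 0 = x := by unfold ad; omega

section

variable {V : Type} [Fintype V] [DecidableEq V] {v : V} {par : V → V} {rk : V → ℕ} {n : ℕ}
  {a : ℕ → ℕ → V} {K Gd : Finset V} {c₀ c₁ : V} {d : V → V} {L₀ : Finset V}

/-- interior vertices of the chains -/
def Int (n : ℕ) (a : ℕ → ℕ → V) : Finset V :=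
  (range n ×ˢ range 67).image (fun p => a p.1 (p.2 + 1))

/-- vertices of the contracted tree -/
def Wv (n : ℕ) (a : ℕ → ℕ → V) (K L₀ : Finset V) : Finset V := univ \ (K ∪ L₀ ∪ Int n a)

open Classical in
/-- parents in the contracted tree -/
noncomputable def pcv (v : V) (par : V → V) (n : ℕ) (a : ℕ → ℕ → V) (K : Finset V) (x : V) : V :=
  if h : ∃ i, i < n ∧ x = a i 68 then a h.choose 0 else if par x ∈ K then v else par x

open Classical in
/-- the labelling -/
noncomputable def fv (n : ℕ) (a : ℕ → ℕ → V) (K : Finset V) (g : V → ℕ) (yl : ℕ → List ℕ)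
    (yk : V → ℕ) (x : V) : ℕ :=
  if x ∈ K then yk x else if h : ∃ p : ℕ × ℕ, p.1 < n ∧ p.2 < 67 ∧ x = a p.1 (p.2 + 1) then
    (yl h.choose.1).getD h.choose.2 0 else g x

lemma mem_Int {x : V} : x ∈ Int n a ↔ ∃ i j, i < n ∧ j < 67 ∧ x = a i (j + 1) := by
  unfold Int
  simp only [mem_image, mem_product, mem_range, Prod.exists]
  constructor
  · rintro ⟨i, j, ⟨h1, h2⟩, h3⟩
    exact ⟨i, j, h1, h2, h3.symm⟩
  · rintro ⟨i, j, h1, h2, h3⟩
    exact ⟨i, j, ⟨h1, h2⟩, h3.symm⟩

lemma mem_Wv {x : V} : x ∈ Wv n a K L₀ ↔ x ∉ K ∧ x ∉ L₀ ∧ x ∉ Int n a := by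
  unfold Wv
  simp only [mem_sdiff, mem_univ, true_and, mem_union, not_or]
  tauto

lemma sum_Int (hc : Chs V v par n a) {M : Type} [AddCommMonoid M] (F : V → M) :
    ∑ x ∈ Int n a, F x = ∑ i ∈ range n, ∑ j ∈ range 67, F (a i (j + 1)) := by
  unfold Int
  rw [sum_image, sum_product]
  rintro ⟨i, j⟩ h1 ⟨i', j'⟩ h2 h3
  simp only [coe_product, Set.mem_prod, mem_coe, mem_range] at h1 h2
  have := hc.inj i h1.1 (j + 1) (by omega) i' h2.1 (j' + 1) (by omega) h3
  simp only [Prod.mk.injEq]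
  exact ⟨this.1, by omega⟩

variable (hr : Rt V v par rk) (hc : Chs V v par n a) (hk : Clu V v par K Gd c₀ c₁ d)
  (haK : ∀ i < n, ∀ j < 69, a i j ∉ K)
  (hL : ∀ x ∈ L₀, x ≠ v ∧ par x = v ∧ Chl V v par x)

include hc hL in
lemma a_notL {i j : ℕ} (hi : i < n) (hj : j < 69) : a i j ∉ L₀ := by
  intro h
  rcases Nat.lt_or_ge j 68 with h1 | h1
  · exact (hL _ h).2.2 (a i (j + 1)) (hc.ne_v i hi (j + 1) (by omega)) (hc.par_a i hi j h1)
  · have h2 : j = 67 + 1 := by omega
    subst h2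
    have h3 := (hL _ h).2.1
    rw [hc.par_a i hi 67 (by omega)] at h3
    exact hc.ne_v i hi 67 (by omega) h3

include hk hL in
lemma K_notL {x : V} (hx : x ∈ K) : x ∉ L₀ := by
  intro h
  by_cases h0 : x = c₀
  · subst h0
    refine (hL _ h).2.2 c₁ ?_ hk.par1
    intro h1
    exact hk.v_not (h1 ▸ hk.c1)
  · have h1 := hk.up x hx h0
    rw [(hL _ h).2.1] at h1
    exact hk.v_not h1

include hc hk haK hL in
lemma v_mem : v ∈ Wv n a K L₀ := by
  rw [mem_Wv]
  refine ⟨hk.v_not, fun h => (hL _ h).1 rfl, ?_⟩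
  rw [mem_Int]
  rintro ⟨i, j, hi, hj, h⟩
  exact hc.ne_v i hi (j + 1) (by omega) h.symm

include hc haK hL in
lemma a0_mem {i : ℕ} (hi : i < n) : a i 0 ∈ Wv n a K L₀ := by
  rw [mem_Wv]
  refine ⟨haK i hi 0 (by omega), a_notL hc hL hi (by omega), ?_⟩
  rw [mem_Int]
  rintro ⟨i', j, hi', hj, h⟩
  have := hc.inj i hi 0 (by omega) i' hi' (j + 1) (by omega) h
  omega

include hc haK hL in
lemma a68_mem {i : ℕ} (hi : i < n) : a i 68 ∈ Wv n a K L₀ := by
  rw [mem_Wv]
  refine ⟨haK i hi 68 (by omega), a_notL hc hL hi (by omega), ?_⟩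
  rw [mem_Int]
  rintro ⟨i', j, hi', hj, h⟩
  have := hc.inj i hi 68 (by omega) i' hi' (j + 1) (by omega) h
  omega

include hc in
lemma pc68 {i : ℕ} (hi : i < n) : pcv v par n a K (a i 68) = a i 0 := by
  have h : ∃ i', i' < n ∧ a i 68 = a i' 68 := ⟨i, hi, rfl⟩
  unfold pcv
  rw [dif_pos h]
  have h2 := hc.inj i hi 68 (by omega) h.choose h.choose_spec.1 68 (by omega) h.choose_spec.2
  rw [← h2.1]

lemma pc_K {x : V} (h1 : ¬ ∃ i, i < n ∧ x = a i 68) (h2 : par x ∈ K) :
    pcv v par n a K x = v := by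
  unfold pcv
  rw [dif_neg h1, if_pos h2]

lemma pc_par {x : V} (h1 : ¬ ∃ i, i < n ∧ x = a i 68) (h2 : par x ∉ K) :
    pcv v par n a K x = par x := by
  unfold pcv
  rw [dif_neg h1, if_neg h2]

include hc hL in
/-- the parent of an ordinary vertex -/
lemma par_mem {x : V} (hx : x ∈ Wv n a K L₀) (hv : x ≠ v) (h1 : ¬ ∃ i, i < n ∧ x = a i 68)
    (h2 : par x ∉ K) : par x ∈ Wv n a K L₀ := by
  rw [mem_Wv]
  refine ⟨h2, fun h => (hL _ h).2.2 x hv rfl, ?_⟩
  rw [mem_Int]
  rintro ⟨i, j, hi, hj, h⟩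
  have h3 := hc.only i hi (j + 1) (by omega) x hv h
  rcases Nat.lt_or_ge (j + 1) 67 with h4 | h4
  · rw [mem_Wv] at hx
    exact hx.2.2 (mem_Int.2 ⟨i, j + 1, hi, h4, h3⟩)
  · have h5 : j = 66 := by omega
    subst h5
    exact h1 ⟨i, hi, h3⟩

include hr hc in
lemma rk_chain {i : ℕ} (hi : i < n) : ∀ j, j < 69 → rk (a i j) = rk (a i 0) + j := by
  intro j
  induction j with
  | zero => intro _; rfl
  | succ j ih =>
    intro hj
    rw [hr.rp _ (hc.ne_v i hi (j + 1) hj), hc.par_a i hi j (by omega), ih (by omega)]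
    omega

include hr hc hk haK hL in
lemma pc_mem {x : V} (hx : x ∈ Wv n a K L₀) (hv : x ≠ v) :
    pcv v par n a K x ∈ Wv n a K L₀ ∧ rk (pcv v par n a K x) < rk x := by
  by_cases h1 : ∃ i, i < n ∧ x = a i 68
  · obtain ⟨i, hi, rfl⟩ := h1
    rw [pc68 hc hi]
    refine ⟨a0_mem hc haK hL hi, ?_⟩
    rw [rk_chain hr hc hi 68 (by omega)]
    omega
  · by_cases h2 : par x ∈ K
    · rw [pc_K h1 h2]
      refine ⟨v_mem hc hk haK hL, ?_⟩
      rw [hr.rv, hr.rp x hv]
      omega
    · rw [pc_par h1 h2]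
      refine ⟨par_mem hc hL hx hv h1 h2, ?_⟩
      rw [hr.rp x hv]
      omega

include hk in
/-- vertices with the parent in the cluster -/
lemma par_K {x : V} (hx : x ∉ K) (hv : x ≠ v) (h : par x ∈ K) : par x ∈ Gd ∧ x = d (par x) := by
  have h1 : par x ∈ Gd := by
    by_contra h1
    exact hx (hk.child _ h h1 x hv rfl)
  exact ⟨h1, hk.d_only _ h1 x hv rfl⟩

include hk in
lemma Gd_K {x : V} (hx : x ∈ Gd) : x ∈ K := mem_of_mem_erase (hk.gd hx)

include hc hk haK hL in
lemma d_mem {x : V} (hx : x ∈ Gd) : d x ∈ Wv n a K L₀ := by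
  have hxK := Gd_K hk hx
  rw [mem_Wv]
  refine ⟨hk.d_not x hx, ?_, ?_⟩
  · intro h
    have h1 := (hL _ h).2.1
    rw [hk.d_par x hx] at h1
    exact hk.v_not (h1 ▸ hxK)
  · rw [mem_Int]
    rintro ⟨i, j, hi, hj, h⟩
    have h1 := hc.par_a i hi j (by omega)
    rw [← h, hk.d_par x hx] at h1
    exact haK i hi j (by omega) (h1 ▸ hxK)

include hc hk haK in
lemma d_ne68 {x : V} (hx : x ∈ Gd) {i : ℕ} (hi : i < n) : d x ≠ a i 68 := by
  intro h
  have h1 := hc.par_a i hi 67 (by omega)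
  rw [← h, hk.d_par x hx] at h1
  exact haK i hi 67 (by omega) (h1 ▸ Gd_K hk hx)

include hc hk haK in
lemma pc_d {x : V} (hx : x ∈ Gd) : pcv v par n a K (d x) = v := by
  apply pc_K
  · rintro ⟨i, hi, h⟩
    exact d_ne68 hc hk haK hx hi h
  · rw [hk.d_par x hx]
    exact Gd_K hk hx

/-- splitting of the sum over all vertices -/
lemma sum_all (hc : Chs V v par n a) (hk : Clu V v par K Gd c₀ c₁ d)
    (haK : ∀ i < n, ∀ j < 69, a i j ∉ K)
    (hL : ∀ x ∈ L₀, x ≠ v ∧ par x = v ∧ Chl V v par x)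
    {M : Type} [AddCommMonoid M] (F : V → M) :
    ∑ x ∈ (univ \ L₀).erase v, F x = ∑ x ∈ (Wv n a K L₀).erase v, F x +
      ∑ i ∈ range n, ∑ j ∈ range 67, F (a i (j + 1)) + ∑ x ∈ K, F x := by
  have h1 : (univ \ L₀).erase v = ((Wv n a K L₀).erase v ∪ Int n a) ∪ K := by
    ext x
    simp only [mem_erase, mem_sdiff, mem_univ, true_and, mem_union, mem_Wv]
    constructor
    · rintro ⟨h1, h2⟩
      by_cases h3 : x ∈ K
      · exact Or.inr h3
      · by_cases h4 : x ∈ Int n a
        · exact Or.inl (Or.inr h4)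
        · exact Or.inl (Or.inl ⟨h1, h3, h2, h4⟩)
    · rintro ((⟨h1, h2, h3, h4⟩ | h) | h)
      · exact ⟨h1, h3⟩
      · obtain ⟨i, j, hi, hj, rfl⟩ := mem_Int.1 h
        exact ⟨hc.ne_v i hi (j + 1) (by omega), a_notL hc hL hi (by omega)⟩
      · refine ⟨?_, K_notL hk hL h⟩
        rintro rfl
        exact hk.v_not h
  have h2 : Disjoint ((Wv n a K L₀).erase v) (Int n a) := by
    rw [disjoint_left]
    intro x hx
    rw [mem_erase, mem_Wv] at hx
    exact hx.2.2.2
  have h3 : Disjoint ((Wv n a K L₀).erase v ∪ Int n a) K := by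
    rw [disjoint_left]
    intro x hx hxK
    rw [mem_union] at hx
    rcases hx with hx | hx
    · rw [mem_erase, mem_Wv] at hx
      exact hx.2.1 hxK
    · obtain ⟨i, j, hi, hj, rfl⟩ := mem_Int.1 hx
      exact haK i hi (j + 1) (by omega) hxK
  rw [h1, sum_union h3, sum_union h2, sum_Int hc]

include hc hk haK hL in
lemma card_W : (Wv n a K L₀).card + K.card + L₀.card + 67 * n = Fintype.card V := by
  have h1 := sum_all hc hk haK hL (fun _ => (1 : ℕ))
  have hvW := v_mem hc hk haK hL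
  have hvL : v ∉ L₀ := fun h => (hL _ h).1 rfl
  simp only [sum_const, smul_eq_mul, mul_one, card_range] at h1
  rw [card_erase_of_mem (by simp [hvL]), card_erase_of_mem hvW, card_sdiff_of_subset (subset_univ _),
    card_univ] at h1
  have h2 : 1 ≤ (Wv n a K L₀).card := card_pos.2 ⟨v, hvW⟩
  have h3 : L₀.card < Fintype.card V := by
    rw [← card_univ]
    exact card_lt_card ⟨subset_univ _, fun h => hvL (h (mem_univ v))⟩
  omega

/-- the ordinary vertices -/
def Rv (v : V) (n : ℕ) (a : ℕ → ℕ → V) (K Gd L₀ : Finset V) (d : V → V) : Finset V :=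
  ((Wv n a K L₀).erase v) \ ((range n).image (fun i => a i 68) ∪ Gd.image d)

lemma sum_W (hc : Chs V v par n a) (hk : Clu V v par K Gd c₀ c₁ d)
    (haK : ∀ i < n, ∀ j < 69, a i j ∉ K)
    (hL : ∀ x ∈ L₀, x ≠ v ∧ par x = v ∧ Chl V v par x)
    {M : Type} [AddCommMonoid M] (F : V → M) :
    ∑ x ∈ (Wv n a K L₀).erase v, F x = ∑ x ∈ Rv v n a K Gd L₀ d, F x +
      (∑ i ∈ range n, F (a i 68) + ∑ x ∈ Gd, F (d x)) := by
  have h1 : (range n).image (fun i => a i 68) ∪ Gd.image d ⊆ (Wv n a K L₀).erase v := by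
    intro x hx
    rw [mem_union, mem_image, mem_image] at hx
    rw [mem_erase]
    rcases hx with ⟨i, hi, rfl⟩ | ⟨y, hy, rfl⟩
    · rw [mem_range] at hi
      exact ⟨hc.ne_v i hi 68 (by omega), a68_mem hc haK hL hi⟩
    · exact ⟨hk.d_ne y hy, d_mem hc hk haK hL hy⟩
  have h2 : Disjoint ((range n).image (fun i => a i 68)) (Gd.image d) := by
    rw [disjoint_left]
    intro x hx hy
    rw [mem_image] at hx hy
    obtain ⟨i, hi, rfl⟩ := hx
    obtain ⟨y, hy, h⟩ := hy
    exact d_ne68 hc hk haK hy (mem_range.1 hi) h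
  unfold Rv
  rw [← sum_sdiff h1, sum_union h2, sum_image, sum_image]
  · intro x hx y hy h
    rw [← hk.d_par x hx, ← hk.d_par y hy, h]
  · intro i hi j hj h
    rw [mem_coe, mem_range] at hi hj
    exact (hc.inj i hi 68 (by omega) j hj 68 (by omega) h).1

include hk in
lemma Rv_spec {x : V} (hx : x ∈ Rv v n a K Gd L₀ d) : x ∈ Wv n a K L₀ ∧ x ≠ v ∧
    (¬ ∃ i, i < n ∧ x = a i 68) ∧ par x ∉ K := by
  unfold Rv at hx
  rw [mem_sdiff, mem_erase, mem_union, mem_image, mem_image] at hx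
  refine ⟨hx.1.2, hx.1.1, ?_, ?_⟩
  · rintro ⟨i, hi, h⟩
    exact hx.2 (Or.inl ⟨i, mem_range.2 hi, h.symm⟩)
  · intro h
    have h1 := par_K hk (mem_Wv.1 hx.1.2).1 hx.1.1 h
    exact hx.2 (Or.inr ⟨par x, h1.1, h1.2.symm⟩)

/-! the labelling -/

variable {g : V → ℕ} {yl : ℕ → List ℕ} {yk : V → ℕ}

lemma f_K {x : V} (hx : x ∈ K) : fv n a K g yl yk x = yk x := by
  unfold fv
  rw [if_pos hx]

include hc haK in
lemma f_a {i j : ℕ} (hi : i < n) (hj : j < 67) :
    fv n a K g yl yk (a i (j + 1)) = (yl i).getD j 0 := by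
  have h : ∃ p : ℕ × ℕ, p.1 < n ∧ p.2 < 67 ∧ a i (j + 1) = a p.1 (p.2 + 1) := ⟨(i, j), hi, hj, rfl⟩
  unfold fv
  rw [if_neg (haK i hi (j + 1) (by omega)), dif_pos h]
  have h1 := hc.inj i hi (j + 1) (by omega) h.choose.1 h.choose_spec.1 (h.choose.2 + 1)
    (by have := h.choose_spec.2.1; omega) h.choose_spec.2.2
  have h2 : h.choose.1 = i := h1.1.symm
  have h3 : h.choose.2 = j := by have := h1.2; omega
  rw [h2, h3]

lemma f_W {x : V} (hx : x ∈ Wv n a K L₀) : fv n a K g yl yk x = g x := by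
  rw [mem_Wv, mem_Int] at hx
  unfold fv
  rw [if_neg hx.1, dif_neg]
  rintro ⟨p, h1, h2, h3⟩
  exact hx.2.2 ⟨p.1, p.2, h1, h2, h3⟩

end

theorem z_asm : AsmStm := by
  intro V _ _ v par rk n a K Gd c₀ c₁ d L₀ hr hc hk haK hL
  refine ⟨Wv n a K L₀, pcv v par n a K, v_mem hc hk haK hL, ?_, card_W hc hk haK hL, ?_, ?_, ?_, ?_, ?_⟩
  · intro x hx hv
    exact pc_mem hr hc hk haK hL hx hv
  · intro x hv hp hxL hxK
    have h1 : ∀ i j, i < n → j < 68 → x ≠ a i (j + 1) := by
      intro i j hi hj h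
      have h2 := hc.par_a i hi j hj
      rw [← h, hp] at h2
      exact hc.ne_v i hi j (by omega) h2.symm
    refine ⟨?_, ?_⟩
    · rw [mem_Wv, mem_Int]
      refine ⟨hxK, hxL, ?_⟩
      rintro ⟨i, j, hi, hj, h⟩
      exact h1 i j hi (by omega) h
    · rw [pc_par]
      · exact hp
      · rintro ⟨i, hi, h⟩
        exact h1 i 67 hi (by omega) h
      · rw [hp]
        exact hk.v_not
  · intro i hi
    exact ⟨a0_mem hc haK hL hi, a68_mem hc haK hL hi, hc.ne_v i hi 0 (by omega),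
      hc.ne_v i hi 68 (by omega), pc68 hc hi⟩
  · intro x hx
    exact ⟨d_mem hc hk haK hL hx, hk.d_ne x hx, pc_d hc hk haK hx⟩
  · intro i hi x hx
    exact d_ne68 hc hk haK hx hi
  · intro g yl yk hgv hyl
    have hfa : ∀ i < n, ∀ j < 67, fv n a K g yl yk (a i (j + 1)) = (yl i).getD j 0 :=
      fun i hi j hj => f_a hc haK hi hj
    refine ⟨fv n a K g yl yk, ?_, ?_, ?_⟩
    · rw [f_W (v_mem hc hk haK hL)]
      exact hgv
    · rw [← sum_sing, ← sum_sing, ← sum_sing, sum_all hc hk haK hL]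
      refine congrArg₂ HAdd.hAdd (congrArg₂ HAdd.hAdd ?_ ?_) ?_
      · refine sum_congr rfl fun x hx => ?_
        rw [f_W (mem_of_mem_erase hx)]
      · refine sum_congr rfl fun i hi => ?_
        rw [mem_range] at hi
        rw [← sum_list (yl i), hyl i hi]
        refine sum_congr rfl fun j hj => ?_
        rw [mem_range] at hj
        rw [hfa i hi j hj]
      · refine sum_congr rfl fun x hx => ?_
        rw [f_K hx]
    · rw [← sum_sing, ← sum_sing, ← sum_sing, sum_all hc hk haK hL, sum_W hc hk haK hL,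
        sum_W hc hk haK hL (fun x => ({ad (g x) (g (pcv v par n a K x))} : Multiset ℕ))]
      have e1 : ∑ x ∈ Rv v n a K Gd L₀ d,
            ({ad (fv n a K g yl yk x) (fv n a K g yl yk (par x))} : Multiset ℕ) =
          ∑ x ∈ Rv v n a K Gd L₀ d, ({ad (g x) (g (pcv v par n a K x))} : Multiset ℕ) := by
        refine sum_congr rfl fun x hx => ?_
        obtain ⟨h1, h2, h3, h4⟩ := Rv_spec hk hx
        rw [f_W h1, f_W (par_mem hc hL h1 h2 h3 h4), pc_par h3 h4]
      have e2 : ∑ x ∈ Gd,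
            ({ad (fv n a K g yl yk (d x)) (fv n a K g yl yk (par (d x)))} : Multiset ℕ) =
          ∑ x ∈ Gd, ({ad (g (d x)) (yk x)} : Multiset ℕ) := by
        refine sum_congr rfl fun x hx => ?_
        rw [f_W (d_mem hc hk haK hL hx), hk.d_par x hx, f_K (Gd_K hk hx)]
      have e3 : ∑ x ∈ Gd, ({ad (g (d x)) (g (pcv v par n a K (d x)))} : Multiset ℕ) =
          ∑ x ∈ Gd, ({g (d x)} : Multiset ℕ) := by
        refine sum_congr rfl fun x hx => ?_
        rw [pc_d hc hk haK hx, hgv, ad_zero]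
      have e4 : ∑ i ∈ range n, ({ad (g (a i 68)) (g (pcv v par n a K (a i 68)))} : Multiset ℕ) =
          ∑ i ∈ range n, ({ad (g (a i 0)) (g (a i 68))} : Multiset ℕ) := by
        refine sum_congr rfl fun i hi => ?_
        rw [pc68 hc (mem_range.1 hi), ad_comm]
      have e5 : ∑ x ∈ K, ({ad (fv n a K g yl yk x) (fv n a K g yl yk (par x))} : Multiset ℕ) =
          ∑ x ∈ K.erase c₀, ({ad (yk x) (yk (par x))} : Multiset ℕ) + {yk c₀} := by
        rw [← add_sum_erase _ _ hk.c0, add_comm]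
        refine congrArg₂ HAdd.hAdd ?_ ?_
        · refine sum_congr rfl fun x hx => ?_
          rw [mem_erase] at hx
          rw [f_K hx.2, f_K (hk.up x hx.2 hx.1)]
        · rw [f_K hk.c0, hk.par0, f_W (v_mem hc hk haK hL), hgv, ad_zero]
      have e6 : ∑ i ∈ range n, ∑ j ∈ range 67,
            ({ad (fv n a K g yl yk (a i (j + 1))) (fv n a K g yl yk (par (a i (j + 1))))} : Multiset ℕ) +
          ∑ i ∈ range n,
            ({ad (fv n a K g yl yk (a i 68)) (fv n a K g yl yk (par (a i 68)))} : Multiset ℕ) =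
          ∑ i ∈ range n, dm (g (a i 0) :: (yl i ++ [g (a i 68)])) := by
        rw [← sum_add_distrib]
        refine sum_congr rfl fun i hi => ?_
        rw [mem_range] at hi
        have hl : (yl i ++ [g (a i 68)]).length = 67 + 1 := by
          rw [List.length_append, hyl i hi, List.length_singleton]
        have e := sum_dm (yl i ++ [g (a i 68)]) (g (a i 0))
        rw [hl, sum_range_succ] at e
        rw [← e]
        have hpre : ∀ j < 68, fv n a K g yl yk (a i j) = (g (a i 0) :: (yl i ++ [g (a i 68)])).getD j 0 := by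
          intro j hj
          rcases j with _ | j
          · rw [f_W (a0_mem hc haK hL hi), List.getD_cons_zero]
          · rw [hfa i hi j (by omega), List.getD_cons_succ, List.getD_append _ _ _ _
              (by rw [hyl i hi]; omega)]
        refine congrArg₂ HAdd.hAdd ?_ ?_
        · refine sum_congr rfl fun j hj => ?_
          rw [mem_range] at hj
          rw [hc.par_a i hi j (by omega), ad_comm, hpre j (by omega), hfa i hi j hj,
            List.getD_append _ _ _ _ (by rw [hyl i hi]; omega)]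
        · rw [hc.par_a i hi 67 (by omega), ad_comm, hpre 67 (by omega),
            f_W (a68_mem hc haK hL hi),
            List.getD_append_right _ _ _ _ (by rw [hyl i hi]), hyl i hi]
          simp
      rw [e1, e2, e3, e4, e5, ← e6]
      abel

end Pool.Agent.W435.SQ
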